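import Pool.Agent.helper72.PV.SpecH

/-!
# pvh:PTE: a state is the value at a point
-/

set_option autoImplicit false

open Finset

namespace Pool.Agent.PVH

open Pool.Agent.PV Pool.Agent.CZ

theorem PTE : PTE_stmt := by
  intro E _ _ _ K H _ ρ g hK σ hσg hσ
  classical
  haveI : CompactSpace K := isCompact_iff_compactSpace.mp hK.compact
  haveI : Nonempty K := hK.nonempty.to_subtype
  by_contra hcon
  push Not at hcon
  have h1 : ∀ t : K, ∃ x, ρ x t < σ x := by
    intro t
    obtain ⟨x, hx⟩ := hcon t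
    rcases lt_or_gt_of_ne hx with h | h
    · refine ⟨-x, ?_⟩
      rw [map_neg, map_neg, ContinuousMap.neg_apply]
      linarith
    · exact ⟨x, h⟩
  obtain ⟨F, hF⟩ := isCompact_univ.elim_finite_subcover (fun x : H => {t : K | ρ x t < σ x})
    (fun x => isOpen_lt (map_continuous (ρ x)) continuous_const) (by
      intro t _
      obtain ⟨x, hx⟩ := h1 t
      exact Set.mem_iUnion.mpr ⟨x, hx⟩)
  let Y : K → (F → ℝ) := fun t x => σ x - ρ x t
  have hYc : Continuous Y := continuous_pi fun x =>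
    continuous_const.sub (map_continuous (ρ (x : H)))
  have hC1 : IsCompact (Set.range Y) := isCompact_range hYc
  have hC2 : Convex ℝ (Set.range Y) := by
    rintro _ ⟨t, rfl⟩ _ ⟨t', rfl⟩ a b ha hb hab
    refine ⟨⟨a • (t : E) + b • (t' : E), hK.convex t.2 t'.2 ha hb hab⟩, ?_⟩
    funext x
    show σ x - ρ x _ = a * (σ x - ρ x t) + b * (σ x - ρ x t')
    rw [(hK.aff (x : H)).aff t t' ⟨a • (t : E) + b • (t' : E), hK.convex t.2 t'.2 ha hb hab⟩ a b
      ha hb hab rfl]
    have : σ (x : H) = (a + b) * σ x := by rw [hab, one_mul]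
    linear_combination this
  have hC3 : (0 : F → ℝ) ∉ Set.range Y := by
    rintro ⟨t, ht⟩
    obtain ⟨x, hx⟩ := Set.mem_iUnion.mp (hF (Set.mem_univ t))
    obtain ⟨hxF, hx⟩ := Set.mem_iUnion.mp hx
    have h2 : σ x - ρ x t = 0 := congrFun ht ⟨x, hxF⟩
    have h3 : ρ x t < σ x := hx
    linarith
  obtain ⟨f, u, hf0, hfu⟩ := geometric_hahn_banach_point_closed hC2 hC1.isClosed hC3
  rw [map_zero] at hf0
  set c : F → ℝ := fun x => f (Pi.single x 1) with hc
  have hfe : ∀ v : F → ℝ, f v = ∑ x, v x * c x := by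
    intro v
    conv_lhs => rw [← Finset.univ_sum_single v]
    rw [map_sum]
    refine Finset.sum_congr rfl fun x _ => ?_
    have : (Pi.single x (v x) : F → ℝ) = v x • Pi.single x 1 := by
      rw [← Pi.single_smul, smul_eq_mul, mul_one]
    rw [this, map_smul, smul_eq_mul]
  obtain ⟨B, hB⟩ := (isCompact_range (f := fun t => ∑ x, |Y t x|)
    (continuous_finset_sum _ fun x _ => ((continuous_apply x).comp hYc).abs)).bddAbove
  have hB' : ∀ t, ∑ x, |Y t x| ≤ B := fun t => hB ⟨t, rfl⟩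
  obtain ⟨N, hN⟩ := exists_nat_gt (B / u)
  have hN' : B < N * u := by
    rwa [div_lt_iff₀ hf0] at hN
  set m : F → ℤ := fun x => ⌊(N : ℝ) * c x⌋ with hm
  have hm1 : ∀ x, |(m x : ℝ) - N * c x| ≤ 1 := by
    intro x
    rw [abs_le]
    have h2 := Int.floor_le ((N : ℝ) * c x)
    have h3 := Int.lt_floor_add_one ((N : ℝ) * c x)
    constructor
    · simp only [hm]
      linarith
    · simp only [hm]
      linarith
  set y : H := ∑ x : F, m x • (x : H) with hy
  have hσy : σ y = ∑ x : F, (m x : ℝ) * σ x := by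
    rw [hy, map_sum]
    refine Finset.sum_congr rfl fun x _ => ?_
    rw [map_zsmul, zsmul_eq_mul]
  have hρy : ∀ t, ρ y t = ∑ x : F, (m x : ℝ) * ρ x t := by
    intro t
    rw [hy, map_sum, ContinuousMap.sum_apply]
    refine Finset.sum_congr rfl fun x _ => ?_
    rw [map_zsmul, ContinuousMap.zsmul_apply, zsmul_eq_mul]
  have hδ : ∀ t, N * u - B ≤ σ y - ρ y t := by
    intro t
    have h2 : σ y - ρ y t = ∑ x, (m x : ℝ) * Y t x := by
      rw [hσy, hρy, ← Finset.sum_sub_distrib]
      refine Finset.sum_congr rfl fun x _ => ?_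
      show _ = (m x : ℝ) * (σ x - ρ x t)
      ring
    have h3 : (N : ℝ) * f (Y t) - ∑ x, |Y t x| ≤ ∑ x, (m x : ℝ) * Y t x := by
      rw [hfe, Finset.mul_sum, ← Finset.sum_sub_distrib]
      refine Finset.sum_le_sum fun x _ => ?_
      have h4 := hm1 x
      have h5 : |((m x : ℝ) - N * c x) * Y t x| ≤ 1 * |Y t x| := by
        rw [abs_mul]
        exact mul_le_mul_of_nonneg_right h4 (abs_nonneg _)
      have h6 := neg_abs_le (((m x : ℝ) - N * c x) * Y t x)
      nlinarith
    have h7 : u < f (Y t) := hfu _ ⟨t, rfl⟩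
    have h8 := hB' t
    have h9 : (N : ℝ) * u ≤ N * f (Y t) := mul_le_mul_of_nonneg_left h7.le (Nat.cast_nonneg _)
    rw [h2]
    linarith
  have hδ0 : 0 < N * u - B := by linarith
  obtain ⟨q, hq⟩ := exists_nat_gt (2 / (N * u - B))
  have hq' : 2 < q * (N * u - B) := by
    rwa [div_lt_iff₀ hδ0] at hq
  set p : ℤ := ⌈(q : ℝ) * σ y⌉ - 1 with hp
  have hp1 : (p : ℝ) < q * σ y := by
    have := Int.ceil_lt_add_one ((q : ℝ) * σ y)
    rw [hp]
    push_cast
    linarith
  have hp2 : (q : ℝ) * σ y ≤ p + 1 := by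
    have := Int.le_ceil ((q : ℝ) * σ y)
    rw [hp]
    push_cast
    linarith
  have h10 : ∀ t, 0 < ρ (p • g - q • y) t := by
    intro t
    rw [map_sub, map_zsmul, map_nsmul, hK.one, ContinuousMap.sub_apply,
      ContinuousMap.zsmul_apply, ContinuousMap.one_apply, ContinuousMap.nsmul_apply,
      zsmul_eq_mul, nsmul_eq_mul, mul_one]
    have h11 := hδ t
    have h12 : (q : ℝ) * (N * u - B) ≤ q * (σ y - ρ y t) :=
      mul_le_mul_of_nonneg_left h11 (Nat.cast_nonneg _)
    have h13 : (q : ℝ) * (σ y - ρ y t) = q * σ y - q * ρ y t := by ring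
    linarith
  have h14 := hσ _ h10
  rw [map_sub, map_zsmul, map_nsmul, hσg, zsmul_eq_mul, nsmul_eq_mul, mul_one] at h14
  linarith

end Pool.Agent.PVH
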