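import Pool.Agent.helper72.PV.SpecH

/-!
# pvh:SPK: `H` separates the points of `K`
-/

set_option autoImplicit false

open Finset

namespace Pool.Agent.PVH

open Pool.Agent.PV Pool.Agent.CZ

theorem SPK : SPK_stmt := by
  intro E _ _ _ _ _ _ _ K H _ ρ g hK t t' h
  by_contra hne
  have hne' : (t : E) ≠ (t' : E) := fun h1 => hne (Subtype.ext h1)
  obtain ⟨c, hc⟩ := geometric_hahn_banach_point_point hne'
  let a : C(K, ℝ) := ⟨fun x => c (x : E), c.continuous.comp continuous_subtype_val⟩
  have ha : IsAff a := by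
    refine ⟨fun x y z s r _ _ _ hz => ?_⟩
    show c (z : E) = s * c (x : E) + r * c (y : E)
    rw [hz, map_add, map_smul, map_smul, smul_eq_mul, smul_eq_mul]
  have hpos : 0 < c t' - c t := by linarith
  obtain ⟨x, hx⟩ := hK.dense a ha ((c t' - c t) / 3) (by linarith)
  have h1 := hx t
  have h2 := hx t'
  rw [h x] at h1
  have e1 : a t = c t := rfl
  have e2 : a t' = c t' := rfl
  rw [e1, abs_lt] at h1
  rw [e2, abs_lt] at h2
  linarith

end Pool.Agent.PVH
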