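import Pool.Agent.helper77.PV.SpecA

/-!
# pv:MF0: finite multi-split algebras, `K₀`
-/

set_option autoImplicit false

open scoped Matrix Topology
open Filter

namespace Pool.Agent.PV

open Pool.Agent.CZ

theorem MF0_sum {I M : Type} [DecidableEq I] [AddCommMonoid M] (F : Finset I) (k : I) (hk : k ∉ F)
    (f : ↥(insert k F) → M) : ∑ x, f x = f ⟨k, Finset.mem_insert_self k F⟩ +
      ∑ x : F, f ⟨x.1, Finset.mem_insert_of_mem x.2⟩ := by
  rw [Finset.univ_eq_attach, Finset.attach_insert, Finset.sum_insert, Finset.sum_image,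
    Finset.univ_eq_attach]
  · intro x _ y _ h
    exact Subtype.ext (congrArg (fun z : ↥(insert k F) => z.1) h)
  · intro h
    obtain ⟨x, _, hx⟩ := Finset.mem_image.mp h
    have h1 : x.1 = k := congrArg (fun z : ↥(insert k F) => z.1) hx
    exact hk (h1 ▸ x.2)

/-- isomorphisms induce isomorphisms -/
theorem MF0_bij (hFUN : FUN_stmt) {A B : Type} [Ring A] [Algebra ℂ A] [Ring B] [Algebra ℂ B]
    (f : A →ₐ[ℂ] B) (hf : Function.Bijective f) : Function.Bijective (k0map f.toRingHom) := by
  obtain ⟨h1, h2, _⟩ := hFUN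
  let g := AlgEquiv.ofBijective f hf
  have e1 : ∀ z : K0 A, k0map (g.symm : B →ₐ[ℂ] A).toRingHom (k0map f.toRingHom z) = z := by
    intro z
    rw [← h2]
    have : (g.symm : B →ₐ[ℂ] A).toRingHom.comp f.toRingHom = RingHom.id A := by
      ext x
      exact g.symm_apply_apply x
    rw [this, h1]
  have e2 : ∀ z : K0 B, k0map f.toRingHom (k0map (g.symm : B →ₐ[ℂ] A).toRingHom z) = z := by
    intro z
    rw [← h2]
    have : f.toRingHom.comp (g.symm : B →ₐ[ℂ] A).toRingHom = RingHom.id B := by
      ext x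
      exact g.apply_symm_apply x
    rw [this, h1]
  exact ⟨Function.LeftInverse.injective e1, Function.RightInverse.surjective e2⟩

theorem MF0 (hMSF : MSF_stmt) (hSX0 : SX0_stmt) (hFUN : FUN_stmt) : MF0_stmt := by
  intro I C₀ C D _ _ _ _ _ _ _ _ _ j e r χ hm F
  classical
  obtain ⟨hcl, _, hM, hsp⟩ := hMSF I C₀ C D j e r hm
  have hcs : ∀ F : Finset I, CompleteSpace (mS e F) := fun F => (hcl F).completeSpace_coe
  induction F using Finset.induction_on with
  | empty =>
    have hj0 : ∀ x, j x ∈ mS e ∅ := fun x k _ => hm.sca k x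
    have hbij : Function.Bijective (j.codRestrict (mS e ∅) hj0) := by
      constructor
      · intro x y hxy
        have h1 : j x = j y := congrArg (fun z : mS e ∅ => (z : C)) hxy
        have h2 : ‖j (x - y)‖ = ‖x - y‖ := hm.iso _
        rw [map_sub, h1, sub_self, norm_zero] at h2
        exact sub_eq_zero.mp (norm_eq_zero.mp h2.symm)
      · rintro ⟨c, hc⟩
        obtain ⟨x, hx⟩ := hm.ran c fun k => hc k (Finset.notMem_empty k)
        exact ⟨x, Subtype.ext hx⟩
    have hk := MF0_bij hFUN _ hbij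
    refine ⟨j.codRestrict (mS e ∅) hj0, fun k => absurd k.2 (Finset.notMem_empty _),
      fun x => rfl, fun k => absurd k.2 (Finset.notMem_empty _), ?_, ?_⟩
    · intro w
      obtain ⟨x, hx⟩ := hk.2 w
      refine ⟨x, fun _ => 0, fun k => map_zero _, ?_⟩
      rw [Finset.univ_eq_empty, Finset.sum_empty, add_zero, hx]
    · intro x y _ h
      rw [Finset.univ_eq_empty, Finset.sum_empty, add_zero] at h
      refine ⟨hk.1 (by rw [h, map_zero]), ?_⟩
      funext k
      exact absurd k.2 (Finset.notMem_empty _)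
  | insert k F hkF ih =>
    obtain ⟨jF, rF, h1, h2, h3, h4⟩ := ih
    obtain ⟨rk, hrk, hs⟩ := hsp F k hkF
    set incl := Subalgebra.inclusion (hM (Finset.subset_insert k F)) with hincl
    haveI := hcs F
    haveI := hcs (insert k F)
    obtain ⟨hS1, hS2⟩ := hSX0 (mS e F) (mS e (insert k F)) D incl
      ((e k).comp (mS e (insert k F)).val) rk χ hs
    have hcomp : ∀ (A : Type) [Ring A] [Algebra ℂ A] (f : A →ₐ[ℂ] mS e F) (z : K0 A),
        k0map (incl.comp f).toRingHom z = k0map incl.toRingHom (k0map f.toRingHom z) := by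
      intro A _ _ f z
      exact hFUN.2.1 A (mS e F) (mS e (insert k F)) f.toRingHom incl.toRingHom z
    let rF' : ↥(insert k F) → D →ₐ[ℂ] mS e (insert k F) := fun x =>
      if h : (x : I) ∈ F then incl.comp (rF ⟨x, h⟩) else rk
    have hrF : ∀ x : F, rF' ⟨x.1, Finset.mem_insert_of_mem x.2⟩ = incl.comp (rF x) := by
      intro x
      exact dif_pos x.2
    have hrk' : rF' ⟨k, Finset.mem_insert_self k F⟩ = rk := dif_neg hkF
    have key : ∀ (x : K0 C₀) (y' : ↥(insert k F) → K0 D),
        k0map (incl.comp jF).toRingHom x + ∑ i, k0map (rF' i).toRingHom (y' i) =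
        k0map incl.toRingHom (k0map jF.toRingHom x + ∑ i : F, k0map (rF i).toRingHom
          (y' ⟨i.1, Finset.mem_insert_of_mem i.2⟩)) +
          k0map rk.toRingHom (y' ⟨k, Finset.mem_insert_self k F⟩) := by
      intro x y'
      rw [MF0_sum F k hkF, hrk', map_add, map_sum, hcomp]
      simp_rw [hrF, hcomp]
      abel
    refine ⟨incl.comp jF, rF', fun x => h1 x, ?_, ?_, ?_⟩
    · rintro ⟨i, hi⟩ d
      by_cases h : i ∈ F
      · have h5 : rF' ⟨i, hi⟩ = incl.comp (rF ⟨i, h⟩) := dif_pos h
        rw [h5]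
        exact h2 ⟨i, h⟩ d
      · have h6 : i = k := (Finset.mem_insert.mp hi).resolve_right h
        subst h6
        rw [hrk']
        exact hrk d
    · intro w
      obtain ⟨x1, y1, hy1, hw⟩ := hS1 w
      obtain ⟨x, y, hy, hx1⟩ := h3 x1
      refine ⟨x, fun i => if h : (i : I) ∈ F then y ⟨i, h⟩ else y1, ?_, ?_⟩
      · rintro ⟨i, hi⟩
        by_cases h : i ∈ F
        · simp only [h, dif_pos]
          exact hy ⟨i, h⟩
        · simp only [h]
          exact hy1
      · rw [key, hw, hx1]
        congr 2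
        · congr 1
          refine Finset.sum_congr rfl fun i _ => ?_
          rw [dif_pos i.2]
        · rw [dif_neg hkF]
    · intro x y' hy' h
      rw [key] at h
      obtain ⟨h5, h6⟩ := hS2 _ _ (hy' _) h
      obtain ⟨h7, h8⟩ := h4 x (fun i => y' ⟨i.1, Finset.mem_insert_of_mem i.2⟩)
        (fun i => hy' _) h5
      refine ⟨h7, ?_⟩
      funext i
      obtain ⟨i, hi⟩ := i
      by_cases h9 : i ∈ F
      · exact congrFun h8 ⟨i, h9⟩
      · have h10 : i = k := (Finset.mem_insert.mp hi).resolve_right h9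
        subst h10
        exact h6

end Pool.Agent.PV
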